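import Pool.Agent.Helper69.ISO.Sheet
import Pool.Agent.Helper79.PN.Fin

/-!
Project ISO, row CLR: the neighbour sums at the vertices of degree 3 control the function.
-/

set_option autoImplicit false

open scoped Classical

namespace Pool.Agent.Helper34.ISO

open Pool.Agent.Helper69.ISO Pool.Agent.Helper79.PN

theorem InV_mir (P : Pen) (K : Lam) : InV P.mir K ↔ InV P (-K) := by
  unfold InV
  simp only [Pen.mir_n, Pen.mir_h]
  constructor
  · rintro (⟨h1, h2⟩ | ⟨h1, h2⟩ | ⟨h1, h2⟩ | ⟨h1, h2⟩)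
    · right; right; right; exact ⟨by omega, fun j => by linarith [h2 j]⟩
    · right; right; left; exact ⟨by omega, fun j => by linarith [h2 j]⟩
    · right; left; exact ⟨by omega, fun j => by linarith [h2 j]⟩
    · left; exact ⟨by omega, fun j => by linarith [h2 j]⟩
  · rintro (⟨h1, h2⟩ | ⟨h1, h2⟩ | ⟨h1, h2⟩ | ⟨h1, h2⟩)
    · right; right; right; exact ⟨by omega, fun j => by linarith [h2 j]⟩
    · right; right; left; exact ⟨by omega, fun j => by linarith [h2 j]⟩
    · right; left; exact ⟨by omega, fun j => by linarith [h2 j]⟩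
    · left; exact ⟨by omega, fun j => by linarith [h2 j]⟩

theorem IsT_mir (P : Pen) (K : Lam) : IsT P.mir K ↔ IsT P (-K) := by
  unfold IsT
  rw [Pen.mir_mir]
  refine exists_congr fun k => ?_
  rw [neg_neg]
  tauto

theorem Sup4_ng {P : Pen} {a : Lam → ℝ} (ha : Sup4 P a) : Sup4 P.mir (ng a) := by
  intro K hK
  rw [InV_mir, IsT_mir] at hK
  exact ha (-K) hK

theorem ng_ng (a : Lam → ℝ) : ng (ng a) = a := by
  funext K
  unfold ng
  rw [neg_neg]

theorem Ker_ng {P : Pen} {b : Lam → ℝ} (hb : Ker P.mir b) : Ker P (ng b) := by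
  obtain ⟨h1, h2, h3⟩ := hb
  refine ⟨?_, ?_, ?_⟩
  · have h4 : Function.support (ng b) = (Equiv.neg Lam) ⁻¹' Function.support b := by
      ext K
      simp only [Function.mem_support, Set.mem_preimage, Equiv.neg_apply]
      rfl
    rw [h4]
    exact h1.preimage (Equiv.injective _).injOn
  · have h5 := Sup4_ng h2
    rwa [Pen.mir_mir] at h5
  · intro w hw
    have h6 := fin_ADJ.2.2.2.2 b (-w)
    rw [neg_neg] at h6
    rw [h6]
    apply h3
    rw [IsT_mir, neg_neg]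
    exact hw

theorem Orth_ng {P : Pen} {a : Lam → ℝ} (ha : Orth P a) : Orth P.mir (ng a) := by
  intro b hb
  have h1 := ha (ng b) (Ker_ng hb)
  rw [← (Equiv.neg Lam).tsum_eq] at h1
  rw [← h1]
  refine tsum_congr fun K => ?_
  simp only [Equiv.neg_apply, ng, neg_neg]

theorem rr_ng (P : Pen) (a : Lam → ℝ) (K : Lam) : rr P.mir (ng a) K = rr P a (-K) := by
  unfold rr
  have h6 := fin_ADJ.2.2.2.2 a (-K)
  rw [neg_neg] at h6
  rw [h6]
  by_cases h : IsT P (-K)
  · rw [if_pos ((IsT_mir P K).2 h), if_pos h]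
  · rw [if_neg (fun h' => h ((IsT_mir P K).1 h')), if_neg h]

theorem mem_Bx_neg {n : ℕ} {D : Lam} (hD : D ∈ Bx n) : -D ∈ Bx n := by
  unfold Bx at hD ⊢
  rw [Fintype.mem_piFinset] at hD ⊢
  intro i
  have h := Finset.mem_Icc.1 (hD i)
  rw [Finset.mem_Icc, Pi.neg_apply]
  omega

theorem sq_add_right (a : Lam → ℝ) (ha : Summable a) (D : Lam) :
    Summable (fun K => a (K + D)) ∧ ∑' K, a (K + D) = ∑' K, a K :=
  ⟨((Equiv.addRight D).summable_iff (f := a)).2 ha, (Equiv.addRight D).tsum_eq a⟩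

theorem single_le (S : Finset Lam) (F : Lam → ℝ) : ∀ D ∈ S, |F D| ≤ ∑ D ∈ S, |F D| :=
  fun _ hD => Finset.single_le_sum (f := fun D => |F D|) (fun _ _ => abs_nonneg _) hD

theorem clr_core (n : ℕ) (C : ℝ) (hC0 : 0 ≤ C) (hC : ∀ (P : Pen) (a : Lam → ℝ) (K : Lam) (M : ℝ),
    Sup4 P a → Orth P a → (P.n K = 1 ∨ P.n K = 3) → Near P a n K M → |a K| ≤ C * M) : ST_CLR := by
  refine ⟨C ^ 2 * ((Bx n).card : ℝ) * ((Bx n).card : ℝ) + 1, by positivity, ?_⟩
  intro P a ha hs ho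
  -- summability
  have hadj : Summable fun K => adj a K ^ 2 := fin_ADJ.1 a ha
  have hle : ∀ K, rr P a K ^ 2 ≤ adj a K ^ 2 := by
    intro K
    unfold rr
    split_ifs
    · exact le_rfl
    · rw [zero_pow two_ne_zero]; exact sq_nonneg _
  have hrr : Summable fun K => rr P a K ^ 2 :=
    Summable.of_nonneg_of_le (fun K => sq_nonneg _) hle hadj
  refine ⟨hrr, ?_⟩
  -- pointwise bound
  have hpt : ∀ K, |a K| ≤ C * ∑ D ∈ Bx n, |rr P a (K + D)| := by
    intro K
    by_cases hK : a K = 0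
    · rw [hK, abs_zero]
      exact mul_nonneg hC0 (Finset.sum_nonneg fun D _ => abs_nonneg _)
    · have hin : InV P K := by
        by_contra h
        exact hK (hs K (Or.inl h))
      have hcase : (P.n K = 1 ∨ P.n K = 3) ∨ (P.n K = 2 ∨ P.n K = 4) := by
        rcases hin with h | h | h | h
        · exact Or.inl (Or.inl h.1)
        · exact Or.inr (Or.inl h.1)
        · exact Or.inl (Or.inr h.1)
        · exact Or.inr (Or.inr h.1)
      have hsingle : ∀ D ∈ Bx n, |rr P a (K + D)| ≤ ∑ D ∈ Bx n, |rr P a (K + D)| :=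
        single_le (Bx n) fun D => rr P a (K + D)
      rcases hcase with hn | hn
      · exact hC P a K _ hs ho hn hsingle
      · have hn' : P.mir.n (-K) = 1 ∨ P.mir.n (-K) = 3 := by
          rw [Pen.mir_n, neg_neg]
          omega
        have h7 := hC P.mir (ng a) (-K) (∑ D ∈ Bx n, |rr P a (K + D)|) (Sup4_ng hs)
          (Orth_ng ho) hn' (by
            intro D hD
            rw [rr_ng, neg_add, neg_neg]
            exact hsingle (-D) (mem_Bx_neg hD))
        have h8 : ng a (-K) = a K := by unfold ng; rw [neg_neg]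
        rwa [h8] at h7
  -- squares
  have hsq : ∀ K, a K ^ 2 ≤
      C ^ 2 * (((Bx n).card : ℝ) * ∑ D ∈ Bx n, rr P a (K + D) ^ 2) := by
    intro K
    have h1 : a K ^ 2 ≤ (C * ∑ D ∈ Bx n, |rr P a (K + D)|) ^ 2 := by
      rw [← sq_abs (a K)]
      exact pow_le_pow_left₀ (abs_nonneg _) (hpt K) 2
    have h2 : (∑ D ∈ Bx n, |rr P a (K + D)|) ^ 2 ≤
        ((Bx n).card : ℝ) * ∑ D ∈ Bx n, |rr P a (K + D)| ^ 2 := sq_sum_le_card_mul_sum_sq
    have h3 : ∑ D ∈ Bx n, |rr P a (K + D)| ^ 2 = ∑ D ∈ Bx n, rr P a (K + D) ^ 2 :=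
      Finset.sum_congr rfl fun D _ => sq_abs _
    rw [h3] at h2
    rw [mul_pow] at h1
    exact h1.trans (mul_le_mul_of_nonneg_left h2 (sq_nonneg C))
  have hD : ∀ D ∈ Bx n, Summable fun K => rr P a (K + D) ^ 2 :=
    fun D _ => (sq_add_right (fun K => rr P a K ^ 2) hrr D).1
  have hsum : Summable fun K => ∑ D ∈ Bx n, rr P a (K + D) ^ 2 := summable_sum hD
  have hts : ∑' K, ∑ D ∈ Bx n, rr P a (K + D) ^ 2 =
      ((Bx n).card : ℝ) * ∑' K, rr P a K ^ 2 := by
    rw [Summable.tsum_finsetSum hD]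
    rw [Finset.sum_congr rfl fun D _ => (sq_add_right (fun K => rr P a K ^ 2) hrr D).2]
    rw [Finset.sum_const, nsmul_eq_mul]
  have hfin : ∑' K, a K ^ 2 ≤ ∑' K, C ^ 2 * (((Bx n).card : ℝ) *
      ∑ D ∈ Bx n, rr P a (K + D) ^ 2) :=
    ha.tsum_le_tsum hsq ((hsum.mul_left _).mul_left _)
  rw [tsum_mul_left, tsum_mul_left, hts] at hfin
  have hpos : 0 ≤ ∑' K, rr P a K ^ 2 := tsum_nonneg fun K => sq_nonneg _
  calc ∑' K, a K ^ 2 ≤ C ^ 2 * (((Bx n).card : ℝ) * (((Bx n).card : ℝ) *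
      ∑' K, rr P a K ^ 2)) := hfin
    _ = (C ^ 2 * ((Bx n).card : ℝ) * ((Bx n).card : ℝ)) * ∑' K, rr P a K ^ 2 := by ring
    _ ≤ _ := mul_le_mul_of_nonneg_right (by linarith) hpos

theorem st_CLR (hM5 : ST_M5) : ST_CLR := by
  obtain ⟨C, hC0, hC⟩ := hM5
  exact clr_core 40 C hC0 hC

end Pool.Agent.Helper34.ISO
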