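import Pool.Agent.Helper69.ISO.Sheet

/-!
Project ISO, row O1: closed range theorem, quantitative form.
-/

set_option autoImplicit false

namespace Pool.Agent.Helper34.ISO

open Pool.Agent.Helper69.ISO

theorem st_O1 : ST_O1 := by
  intro X Y _ _ _ _ _ _ B B' c hc hadj hB y hy
  -- the kernel of `B`
  have hK : IsClosed ((LinearMap.ker B.toLinearMap : Submodule ℝ X) : Set X) := B.isClosed_ker
  have : CompleteSpace (LinearMap.ker B.toLinearMap : Submodule ℝ X) := hK.completeSpace_coe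
  -- every value is the value of a vector orthogonal to the kernel
  have hval : ∀ x : X, ∃ z : X, B z = B x ∧ c * ‖z‖ ≤ ‖B z‖ := by
    intro x
    obtain ⟨p, hp, z, hz, hxz⟩ := Submodule.exists_add_mem_mem_orthogonal
      (K := (LinearMap.ker B.toLinearMap : Submodule ℝ X)) x
    refine ⟨z, ?_, ?_⟩
    · have hp' : B p = 0 := hp
      rw [hxz, map_add, hp', zero_add]
    · apply hB z
      intro x' hx'
      have h1 := (Submodule.mem_orthogonal _ z).1 hz x' hx'
      rw [real_inner_comm]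
      exact h1
  -- `y` lies in the closure of the range
  have hcl : y ∈ (LinearMap.range B.toLinearMap).topologicalClosure := by
    rw [← Submodule.orthogonal_orthogonal_eq_closure]
    rw [Submodule.mem_orthogonal]
    intro u hu
    have hu0 : B' u = 0 := by
      have h2 : inner ℝ (B' u) (B' u) = (0 : ℝ) := by
        rw [← hadj]
        exact (Submodule.mem_orthogonal _ u).1 hu (B (B' u)) ⟨B' u, rfl⟩
      exact inner_self_eq_zero.1 h2
    rw [real_inner_comm]
    exact hy u hu0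
  have happ : ∀ ε : ℝ, 0 < ε → ∃ x : X, ‖y - B x‖ < ε := by
    intro ε hε
    have h3 : y ∈ closure (Set.range B) := hcl
    obtain ⟨b, ⟨x, rfl⟩, hb⟩ := Metric.mem_closure_iff.1 h3 ε hε
    exact ⟨x, by rwa [← dist_eq_norm]⟩
  -- the estimate
  have hest : ∀ ε : ℝ, 0 < ε → c * ‖y‖ ^ 2 ≤ c * (ε * ‖y‖) + (‖y‖ + ε) * ‖B' y‖ := by
    intro ε hε
    obtain ⟨x, hx⟩ := happ ε hε
    obtain ⟨z, hz1, hz2⟩ := hval x
    have h4 : ‖y‖ ^ 2 = inner ℝ (y - B z) y + inner ℝ z (B' y) := by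
      rw [← hadj, ← inner_add_left, sub_add_cancel, real_inner_self_eq_norm_sq]
    have h5 : inner ℝ (y - B z) y ≤ ε * ‖y‖ := by
      refine (real_inner_le_norm _ _).trans ?_
      rw [hz1]
      exact mul_le_mul_of_nonneg_right hx.le (norm_nonneg _)
    have h6 : inner ℝ z (B' y) ≤ ‖z‖ * ‖B' y‖ := real_inner_le_norm _ _
    have h7 : ‖B z‖ ≤ ‖y‖ + ε := by
      have h8 : B z = y - (y - B x) := by rw [hz1]; abel
      rw [h8]
      exact (norm_sub_le _ _).trans (by linarith)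
    have h9 : c * (‖z‖ * ‖B' y‖) ≤ (‖y‖ + ε) * ‖B' y‖ := by
      rw [← mul_assoc]
      exact mul_le_mul_of_nonneg_right (hz2.trans h7) (norm_nonneg _)
    rw [h4, mul_add]
    have h10 : c * inner ℝ (y - B z) y ≤ c * (ε * ‖y‖) := mul_le_mul_of_nonneg_left h5 hc.le
    have h11 : c * inner ℝ z (B' y) ≤ c * (‖z‖ * ‖B' y‖) := mul_le_mul_of_nonneg_left h6 hc.le
    linarith
  rcases (norm_nonneg y).eq_or_lt with h0 | h0
  · rw [← h0, mul_zero]; exact norm_nonneg _
  · have hlim : c * ‖y‖ ^ 2 ≤ ‖y‖ * ‖B' y‖ := by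
      refine le_of_forall_pos_le_add ?_
      intro δ hδ
      have hpos : 0 < c * ‖y‖ + ‖B' y‖ := by positivity
      have h12 := hest (δ / (c * ‖y‖ + ‖B' y‖)) (by positivity)
      have h13 : c * (δ / (c * ‖y‖ + ‖B' y‖) * ‖y‖) + (‖y‖ + δ / (c * ‖y‖ + ‖B' y‖)) * ‖B' y‖ =
          ‖y‖ * ‖B' y‖ + δ := by
        field_simp
        ring
      linarith
    have h14 : (c * ‖y‖) * ‖y‖ ≤ ‖B' y‖ * ‖y‖ := by nlinarith
    exact le_of_mul_le_mul_right h14 h0

end Pool.Agent.Helper34.ISO
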