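import Pool.Agent.Helper69.ISO.Sheet
import Pool.Agent.Helper79.PN.Fin

/-!
Project ISO, row O2: functions on the vertices of degree 3.
-/

set_option autoImplicit false

open scoped Classical

namespace Pool.Agent.Helper34.ISO

open Pool.Agent.Helper69.ISO Pool.Agent.Helper79.PN

/-- the real Hilbert space -/
abbrev L2 : Type := lp (fun _ : Lam => ℝ) 2

theorem mem_iff (a : Lam → ℝ) : Memℓp a 2 ↔ Sq a := by
  rw [memℓp_gen_iff (by norm_num)]
  simp only [ENNReal.toReal_ofNat, Real.rpow_ofNat, Real.norm_eq_abs, sq_abs]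
  exact Iff.rfl

theorem inner_eq (x y : L2) : inner ℝ x y = ∑' K, (x : Lam → ℝ) K * (y : Lam → ℝ) K := by
  rw [lp.inner_eq_tsum]
  refine tsum_congr fun K => ?_
  rw [RCLike.inner_apply, conj_trivial, mul_comm]

theorem nsq (x : L2) : ‖x‖ ^ 2 = ∑' K, (x : Lam → ℝ) K ^ 2 := by
  rw [← real_inner_self_eq_norm_sq, inner_eq]
  exact tsum_congr fun K => (sq _).symm

theorem sq_coe (x : L2) : Sq (x : Lam → ℝ) := (mem_iff _).1 (lp.memℓp x)

/-- restriction -/
noncomputable def cut (p : Lam → Prop) (a : Lam → ℝ) : Lam → ℝ := fun K => if p K then a K else 0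

theorem cut_sq_le (p : Lam → Prop) (a : Lam → ℝ) (K : Lam) : cut p a K ^ 2 ≤ a K ^ 2 := by
  unfold cut
  split_ifs
  · exact le_rfl
  · rw [zero_pow two_ne_zero]; exact sq_nonneg _

theorem cut_sq (p : Lam → Prop) {a : Lam → ℝ} (ha : Sq a) : Sq (cut p a) :=
  Summable.of_nonneg_of_le (fun _ => sq_nonneg _) (cut_sq_le p a) ha

theorem adj_bound {a : Lam → ℝ} (ha : Sq a) : ∑' K, adj a K ^ 2 ≤ 100 * ∑' K, a K ^ 2 := by
  have h1 : ∀ K, adj a K ^ 2 ≤ ∑ i, (10 * a (K + e i) ^ 2 + 10 * a (K - e i) ^ 2) := by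
    intro K
    have h2 : (∑ i : ZMod 5, (a (K + e i) + a (K - e i))) ^ 2 ≤
        ((Finset.univ : Finset (ZMod 5)).card : ℝ) * ∑ i, (a (K + e i) + a (K - e i)) ^ 2 :=
      sq_sum_le_card_mul_sum_sq
    rw [Finset.card_univ, ZMod.card] at h2
    unfold adj
    refine h2.trans ?_
    rw [Finset.mul_sum]
    refine Finset.sum_le_sum fun i _ => ?_
    push_cast
    nlinarith [sq_nonneg (a (K + e i) - a (K - e i))]
  have hp : ∀ i : ZMod 5, Summable fun K => a (K + e i) ^ 2 := fun i =>
    ((Equiv.addRight (e i)).summable_iff (f := fun K => a K ^ 2)).2 ha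
  have hm : ∀ i : ZMod 5, Summable fun K => a (K - e i) ^ 2 := fun i =>
    ((Equiv.subRight (e i)).summable_iff (f := fun K => a K ^ 2)).2 ha
  have hpt : ∀ i : ZMod 5, ∑' K, a (K + e i) ^ 2 = ∑' K, a K ^ 2 := fun i =>
    (Equiv.addRight (e i)).tsum_eq (fun K => a K ^ 2)
  have hmt : ∀ i : ZMod 5, ∑' K, a (K - e i) ^ 2 = ∑' K, a K ^ 2 := fun i =>
    (Equiv.subRight (e i)).tsum_eq (fun K => a K ^ 2)
  have hs : ∀ i : ZMod 5, Summable fun K => 10 * a (K + e i) ^ 2 + 10 * a (K - e i) ^ 2 :=
    fun i => ((hp i).mul_left 10).add ((hm i).mul_left 10)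
  have h3 := (fin_ADJ.1 a ha).tsum_le_tsum h1 (summable_sum fun i _ => hs i)
  refine h3.trans (le_of_eq ?_)
  rw [Summable.tsum_finsetSum fun i _ => hs i]
  have h4 : ∀ i ∈ (Finset.univ : Finset (ZMod 5)),
      ∑' K, (10 * a (K + e i) ^ 2 + 10 * a (K - e i) ^ 2) = 20 * ∑' K, a K ^ 2 := by
    intro i _
    rw [((hp i).mul_left 10).tsum_add ((hm i).mul_left 10), tsum_mul_left, tsum_mul_left,
      hpt, hmt]
    ring
  rw [Finset.sum_congr rfl h4, Finset.sum_const, Finset.card_univ, ZMod.card, nsmul_eq_mul]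
  push_cast
  ring

/-- the operators -/
noncomputable def op (p q : Lam → Prop) (a : Lam → ℝ) : Lam → ℝ := cut q (adj (cut p a))

theorem op_sq (p q : Lam → Prop) {a : Lam → ℝ} (ha : Sq a) : Sq (op p q a) :=
  cut_sq q (fin_ADJ.1 _ (cut_sq p ha))

theorem op_add (p q : Lam → Prop) (a b : Lam → ℝ) : op p q (a + b) = op p q a + op p q b := by
  have h1 : cut p (a + b) = cut p a + cut p b := by
    funext K
    simp only [cut, Pi.add_apply]
    split_ifs <;> simp
  have h2 : ∀ u v : Lam → ℝ, adj (u + v) = adj u + adj v := by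
    intro u v
    funext K
    simp only [adj, Pi.add_apply]
    rw [← Finset.sum_add_distrib]
    exact Finset.sum_congr rfl fun i _ => by ring
  funext K
  unfold op
  rw [h1, h2]
  simp only [cut, Pi.add_apply]
  split_ifs <;> simp

theorem op_smul (p q : Lam → Prop) (c : ℝ) (a : Lam → ℝ) : op p q (c • a) = c • op p q a := by
  have h1 : cut p (c • a) = c • cut p a := by
    funext K
    simp only [cut, Pi.smul_apply, smul_eq_mul]
    split_ifs <;> simp
  have h2 : ∀ u : Lam → ℝ, adj (c • u) = c • adj u := by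
    intro u
    funext K
    simp only [adj, Pi.smul_apply, smul_eq_mul]
    rw [Finset.mul_sum]
    exact Finset.sum_congr rfl fun i _ => by ring
  funext K
  unfold op
  rw [h1, h2]
  simp only [cut, Pi.smul_apply, smul_eq_mul]
  split_ifs <;> simp

/-- the operators as linear maps -/
noncomputable def opl (p q : Lam → Prop) : L2 →ₗ[ℝ] L2 where
  toFun x := ⟨op p q x, (mem_iff _).2 (op_sq p q (sq_coe x))⟩
  map_add' x y := Subtype.ext (op_add p q x y)
  map_smul' c x := Subtype.ext (op_smul p q c x)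

theorem opl_coe (p q : Lam → Prop) (x : L2) : ((opl p q x : L2) : Lam → ℝ) = op p q x := rfl

theorem opl_bound (p q : Lam → Prop) (x : L2) : ‖opl p q x‖ ≤ 10 * ‖x‖ := by
  have h1 : ‖opl p q x‖ ^ 2 ≤ (10 * ‖x‖) ^ 2 := by
    rw [nsq, mul_pow, nsq]
    have hc := cut_sq p (sq_coe x)
    have h2 : ∑' K, ((opl p q x : L2) : Lam → ℝ) K ^ 2 ≤
        ∑' K, adj (cut p (x : Lam → ℝ)) K ^ 2 :=
      (op_sq p q (sq_coe x)).tsum_le_tsum (cut_sq_le q _) (fin_ADJ.1 _ hc)
    have h3 := adj_bound hc
    have h4 : ∑' K, cut p (x : Lam → ℝ) K ^ 2 ≤ ∑' K, (x : Lam → ℝ) K ^ 2 :=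
      hc.tsum_le_tsum (cut_sq_le p _) (sq_coe x)
    nlinarith
  exact (pow_le_pow_iff_left₀ (norm_nonneg _) (by positivity) two_ne_zero).1 h1

/-- the operators as continuous linear maps -/
noncomputable def opc (p q : Lam → Prop) : L2 →L[ℝ] L2 := (opl p q).mkContinuous 10 (opl_bound p q)

theorem opc_coe (p q : Lam → Prop) (x : L2) : ((opc p q x : L2) : Lam → ℝ) = op p q x := rfl

theorem cut_mul (p : Lam → Prop) (a b : Lam → ℝ) (K : Lam) :
    cut p a K * b K = a K * cut p b K := by
  unfold cut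
  split_ifs <;> simp

theorem opc_adj (p q : Lam → Prop) (x y : L2) :
    inner ℝ (opc p q x) y = inner ℝ x (opc q p y) := by
  rw [inner_eq, inner_eq]
  have h1 : ∀ K, ((opc p q x : L2) : Lam → ℝ) K * (y : Lam → ℝ) K =
      cut q (y : Lam → ℝ) K * adj (cut p (x : Lam → ℝ)) K := by
    intro K
    rw [opc_coe, op, cut_mul, mul_comm]
  have h2 : ∀ K, (x : Lam → ℝ) K * ((opc q p y : L2) : Lam → ℝ) K =
      cut p (x : Lam → ℝ) K * adj (cut q (y : Lam → ℝ)) K := by
    intro K
    rw [opc_coe, op, cut_mul]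
  rw [tsum_congr h1, tsum_congr h2]
  exact fin_ADJ.2.1 _ _ (cut_sq q (sq_coe y)) (cut_sq p (sq_coe x))

theorem sq_fin {b : Lam → ℝ} (hb : (Function.support b).Finite) : Sq b := by
  refine summable_of_hasFiniteSupport (hb.subset ?_)
  intro K hK
  rw [Function.mem_support] at hK ⊢
  exact fun h => hK (by rw [h]; norm_num)

theorem adj_zero (K : Lam) : adj (fun _ => (0 : ℝ)) K = 0 := by
  unfold adj
  simp

theorem st_O2 (hCLR : ST_CLR) (hO1 : ST_O1) : ST_O2 := by
  obtain ⟨C, hC, hc⟩ := hCLR
  refine ⟨C, hC, ?_⟩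
  intro P b hb hbT hort
  have hsC : 0 < √C := Real.sqrt_pos.2 hC
  have hsq : √C ^ 2 = C := Real.sq_sqrt hC.le
  -- the two sets of vertices
  set V : Lam → Prop := fun K => InV P K ∧ ¬ IsT P K with hV
  set T : Lam → Prop := fun K => IsT P K with hT
  -- functions orthogonal to the kernel
  have hker : ∀ x : L2, (∀ x', opc V T x' = 0 → inner ℝ x x' = (0 : ℝ)) →
      (√C)⁻¹ * ‖x‖ ≤ ‖opc V T x‖ := by
    intro x hx
    have hfin : ∀ d : Lam → ℝ, (Function.support d).Finite → (∀ K, op V T d K = 0) →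
        ∑' K, (x : Lam → ℝ) K * d K = 0 := by
      intro d hd h0
      have h1 := hx ⟨d, (mem_iff d).2 (sq_fin hd)⟩ (Subtype.ext (funext h0))
      rw [inner_eq] at h1
      exact h1
    have hs4 : Sup4 P (x : Lam → ℝ) := by
      intro K hK
      have hnV : ¬ V K := by
        rw [hV]
        rintro ⟨h1, h2⟩
        exact hK.elim (fun h => h h1) h2
      have h1 := hfin (fun K' => if K' = K then 1 else 0) (by
        refine (Set.finite_singleton K).subset ?_
        intro K' hK'
        by_contra h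
        exact hK' (if_neg h)) (by
        intro K'
        have h2 : cut V (fun K' => if K' = K then (1 : ℝ) else 0) = fun _ => 0 := by
          funext K''
          unfold cut
          by_cases h3 : V K''
          · rw [if_pos h3]
            by_cases h4 : K'' = K
            · rw [h4] at h3
              exact absurd h3 hnV
            · exact if_neg h4
          · rw [if_neg h3]
        unfold op
        rw [h2]
        unfold cut
        split_ifs
        · exact adj_zero K'
        · rfl)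
      rw [tsum_eq_single K (fun K' hK' => by rw [if_neg hK', mul_zero])] at h1
      simpa using h1
    have hcx : cut V (x : Lam → ℝ) = x := by
      funext K
      unfold cut
      split_ifs with h
      · rfl
      · refine (hs4 K ?_).symm
        by_contra h'
        push Not at h'
        exact h h'
    have hor : Orth P (x : Lam → ℝ) := by
      intro d hd
      refine hfin d hd.1 ?_
      intro K
      have hcd : cut V d = d := by
        funext K'
        unfold cut
        split_ifs with h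
        · rfl
        · refine (hd.2.1 K' ?_).symm
          by_contra h'
          push Not at h'
          exact h h'
      unfold op
      rw [hcd]
      unfold cut
      split_ifs with h
      · exact hd.2.2 K h
      · rfl
    obtain ⟨-, h2⟩ := hc P (x : Lam → ℝ) (sq_coe x) hs4 hor
    have h3 : ∑' K, rr P (x : Lam → ℝ) K ^ 2 = ‖opc V T x‖ ^ 2 := by
      rw [nsq]
      refine tsum_congr fun K => ?_
      rw [opc_coe, op, hcx]
      rfl
    rw [h3, ← nsq] at h2
    have h4 : ‖x‖ ^ 2 ≤ (√C * ‖opc V T x‖) ^ 2 := by rw [mul_pow, hsq]; exact h2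
    have h5 : ‖x‖ ≤ √C * ‖opc V T x‖ :=
      (pow_le_pow_iff_left₀ (norm_nonneg _) (by positivity) two_ne_zero).1 h4
    rw [inv_mul_le_iff₀ hsC]
    exact h5
  -- apply the closed range theorem
  have hmain := hO1 L2 L2 (opc V T) (opc T V) (√C)⁻¹ (by positivity) (opc_adj V T) hker
    ⟨b, (mem_iff b).2 hb⟩ (by
      intro y hy
      rw [inner_eq]
      have h1 := hort (cut T (y : Lam → ℝ)) (cut_sq T (sq_coe y)) (fun K hK => if_neg hK) (by
        intro K hK
        by_cases hKT : IsT P K
        · refine (fin_TT P K hKT).2.2 _ ?_ (fun K' hK' => if_neg hK')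
          intro K' hK'
          exact if_neg fun h => hK' (fin_TT P K' h).1
        · have h2 : ((opc T V y : L2) : Lam → ℝ) K = 0 := by rw [hy]; rfl
          rw [opc_coe, op] at h2
          unfold cut at h2
          rw [if_pos (show V K from ⟨hK, hKT⟩)] at h2
          exact h2)
      rw [← h1]
      refine tsum_congr fun K => ?_
      show b K * (y : Lam → ℝ) K = b K * cut T (y : Lam → ℝ) K
      by_cases hKT : IsT P K
      · unfold cut
        rw [if_pos hKT]
      · rw [hbT K hKT, zero_mul, zero_mul])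
  rw [inv_mul_le_iff₀ hsC] at hmain
  have h5 := pow_le_pow_left₀ (norm_nonneg _) hmain 2
  rw [mul_pow, hsq, nsq, nsq] at h5
  refine h5.trans (mul_le_mul_of_nonneg_left ?_ hC.le)
  have hbc : cut T b = b := by
    funext K
    unfold cut
    split_ifs with h
    · rfl
    · exact (hbT K h).symm
  have hadj := fin_ADJ.1 b hb
  refine Summable.tsum_le_tsum ?_ (op_sq T V hb) ?_
  · intro K
    rw [opc_coe]
    show op T V b K ^ 2 ≤ _
    unfold op
    rw [hbc]
    unfold cut
    split_ifs with h
    · rw [ind_true h.1, one_mul]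
    · rw [zero_pow two_ne_zero]; exact sq_nonneg _
  · refine Summable.of_nonneg_of_le (fun K => sq_nonneg _) (fun K => ?_) hadj
    by_cases h : InV P K
    · rw [ind_true h, one_mul]
    · rw [ind_false h, zero_mul, zero_pow two_ne_zero]; exact sq_nonneg _

end Pool.Agent.Helper34.ISO
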